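import Mathlib

set_option autoImplicit false

namespace Pool.Agent.H986S

/-- The common structure of balanced Carmichael numbers with three prime factors. -/
theorem struct3 {A B C M : ℕ} (hA : 0 < A) (hAB : A < B) (hBC : B < C) (hC : C ≤ 2 * A)
    (h1 : A ∣ B * C + B + C) (h2 : B ∣ A * C + A + C) (h3 : C ∣ A * B + A + B)
    (hM : M.Prime) (hM2 : 6 * A < M ^ 2) (hd : M ∣ B - A) : M ∣ A := by
  obtain ⟨g, hg⟩ : ∃ g, g = Nat.gcd A B := ⟨_, rfl⟩
  have hg0 : 0 < g := by rw [hg]; exact Nat.gcd_pos_of_pos_left _ hA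
  have hgA : g ∣ A := hg ▸ Nat.gcd_dvd_left A B
  have hgB : g ∣ B := hg ▸ Nat.gcd_dvd_right A B
  have key : ∀ {h X Y Z : ℕ}, h ∣ X → h ∣ Y → X ∣ Y * Z + Y + Z → h ∣ Z := by
    intro h X Y Z hX hY hd
    have h4 : h ∣ Y * Z + Y + Z := hX.trans hd
    have h5 : h ∣ Y * Z + Y := (hY.mul_right Z).add hY
    exact (Nat.dvd_add_right h5).mp h4
  have hgC : g ∣ C := key hgA hgB h1
  obtain ⟨a, ha⟩ := hgA
  obtain ⟨b, hb⟩ := hgB
  obtain ⟨c, hc⟩ := hgC
  have hcop : ∀ {x y : ℕ}, Nat.gcd (g * x) (g * y) ∣ g → Nat.Coprime x y := by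
    intro x y hxy
    rw [Nat.gcd_mul_left] at hxy
    have h6 : g * Nat.gcd x y ≤ g := Nat.le_of_dvd hg0 hxy
    have h7 : Nat.gcd x y ≤ 1 := by
      by_contra h
      push Not at h
      nlinarith
    have h8 : Nat.gcd x y ≠ 0 := by
      intro h
      rw [h, mul_zero] at hxy
      exact hg0.ne' (Nat.eq_zero_of_zero_dvd hxy)
    unfold Nat.Coprime
    omega
  have cab : Nat.Coprime a b := hcop (by rw [← ha, ← hb, ← hg])
  have cac : Nat.Coprime a c := by
    apply hcop
    rw [← ha, ← hc, hg]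
    refine Nat.dvd_gcd (Nat.gcd_dvd_left _ _) ?_
    refine key (Nat.gcd_dvd_left A C) (Nat.gcd_dvd_right A C) ?_
    rw [show C * B + C + B = B * C + B + C by ring]
    exact h1
  have cbc : Nat.Coprime b c := by
    apply hcop
    rw [← hb, ← hc, hg]
    refine Nat.dvd_gcd ?_ (Nat.gcd_dvd_left _ _)
    refine key (Nat.gcd_dvd_left B C) (Nat.gcd_dvd_right B C) ?_
    rw [show C * A + C + A = A * C + A + C by ring]
    exact h2
  have a0 : 0 < a := by
    rcases Nat.eq_zero_or_pos a with h | h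
    · rw [h, mul_zero] at ha; omega
    · exact h
  have hab : a < b := by
    rw [ha, hb] at hAB
    exact lt_of_mul_lt_mul_left hAB (Nat.zero_le g)
  have hbc : b < c := by
    rw [hb, hc] at hBC
    exact lt_of_mul_lt_mul_left hBC (Nat.zero_le g)
  have hca : c ≤ 2 * a := by
    rw [ha, hc, show 2 * (g * a) = g * (2 * a) by ring] at hC
    exact le_of_mul_le_mul_left hC hg0
  have red : ∀ {x y z : ℕ}, g * x ∣ g * y * (g * z) + g * y + g * z → x ∣ g * (y * z) + y + z := by
    intro x y z h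
    rw [show g * y * (g * z) + g * y + g * z = g * (g * (y * z) + y + z) by ring] at h
    exact Nat.dvd_of_mul_dvd_mul_left hg0 h
  rw [ha, hb, hc] at h1 h2 h3
  have d1 := red h1
  have d2 := red h2
  have d3 := red h3
  set N := g * (a * b + b * c + a * c) + (a + b + c) with hN
  have e1 : a ∣ N := by
    have : N = (g * (b * c) + b + c) + a * (g * (b + c) + 1) := by rw [hN]; ring
    rw [this]; exact d1.add (Dvd.intro _ rfl)
  have e2 : b ∣ N := by
    have : N = (g * (a * c) + a + c) + b * (g * (a + c) + 1) := by rw [hN]; ring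
    rw [this]; exact d2.add (Dvd.intro _ rfl)
  have e3 : c ∣ N := by
    have : N = (g * (a * b) + a + b) + c * (g * (a + b) + 1) := by rw [hN]; ring
    rw [this]; exact d3.add (Dvd.intro _ rfl)
  have e4 : a * b * c ∣ N :=
    (Nat.Coprime.mul_left cac cbc).mul_dvd_of_dvd_of_dvd (cab.mul_dvd_of_dvd_of_dvd e1 e2) e3
  have hN0 : 0 < N := by rw [hN]; omega
  have e5 : a * b * c ≤ N := Nat.le_of_dvd hN0 e4
  have hle : a ≤ 6 * g := by
    by_contra h
    push Not at h
    have hb0 : 0 < b := by omega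
    have hc0 : 0 < c := by omega
    have f1 : a * b ≤ b * c := by nlinarith
    have f2 : a * c ≤ b * c := by nlinarith
    have f3 : a + b + c ≤ 3 * (b * c) := by nlinarith
    have f4 : N ≤ (3 * g + 3) * (b * c) := by rw [hN]; nlinarith
    have f5 : a * (b * c) ≤ (3 * g + 3) * (b * c) := by
      rw [← mul_assoc]; exact e5.trans f4
    have f6 : a ≤ 3 * g + 3 := le_of_mul_le_mul_right f5 (Nat.mul_pos hb0 hc0)
    omega
  have haM : a < M := by
    by_contra h
    push Not at h
    have i1 : M ^ 2 ≤ a ^ 2 := Nat.pow_le_pow_left h 2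
    have i2 : a * a ≤ 6 * g * a := Nat.mul_le_mul_right a hle
    rw [ha] at hM2
    have i3 : a ^ 2 = a * a := sq a
    have i4 : 6 * g * a = 6 * (g * a) := mul_assoc _ _ _
    omega
  have hd2 : M ∣ g * (b - a) := by
    rw [Nat.mul_sub, ← ha, ← hb]; exact hd
  rcases (hM.dvd_mul).mp hd2 with h | h
  · rw [ha]; exact h.mul_right a
  · exfalso
    have := Nat.le_of_dvd (by omega) h
    omega

end Pool.Agent.H986S
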