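import Mathlib

set_option autoImplicit false

namespace Pool.Agent.H986S

/-- `n` passes the strong test for the base `a`: writing `n - 1 = 2 ^ u * t` with `t` odd,
`a ^ t` is `1` or `a ^ (2 ^ i * t)` is `-1` modulo `n` for some `i < u`. -/
def Passes (n : ℕ) (a : ℤ) : Prop :=
  ∃ u t : ℕ, Odd t ∧ n - 1 = 2 ^ u * t ∧
    (a ^ t ≡ 1 [ZMOD n] ∨ ∃ i < u, a ^ (2 ^ i * t) ≡ -1 [ZMOD n])

/-- `a` is a witness for `n`: `n` does not divide `a` and `n` fails the strong test to base `a`. -/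
def IsWitness (n : ℕ) (a : ℤ) : Prop := ¬ (n : ℤ) ∣ a ∧ ¬ Passes n a

/-- a primitive root modulo `p ^ 2` -/
theorem exists_root (p : ℕ) (hp : p.Prime) (hp2 : p ≠ 2) :
    ∃ g : ℕ, Nat.Coprime g p ∧
      ∀ m : ℕ, ((g : ℤ) ^ m ≡ 1 [ZMOD ((p ^ 2 : ℕ) : ℤ)]) → p * (p - 1) ∣ m := by
  haveI : NeZero (p ^ 2) := ⟨pow_ne_zero 2 hp.ne_zero⟩
  haveI := ZMod.isCyclic_units_of_prime_pow p hp hp2 2
  obtain ⟨u, hu⟩ := IsCyclic.exists_generator (α := (ZMod (p ^ 2))ˣ)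
  refine ⟨(u : ZMod (p ^ 2)).val, ?_, ?_⟩
  · have h := ZMod.val_coe_unit_coprime u
    exact Nat.Coprime.coprime_dvd_right (dvd_pow_self p two_ne_zero) h
  · intro m hm
    have h1 : ((u : ZMod (p ^ 2))) ^ m = 1 := by
      have h2 := (ZMod.intCast_eq_intCast_iff _ _ (p ^ 2)).mpr hm
      push_cast at h2
      rwa [ZMod.natCast_zmod_val] at h2
    have h3 : u ^ m = 1 := by
      apply Units.ext
      push_cast
      exact h1
    have h4 : orderOf u ∣ m := orderOf_dvd_of_pow_eq_one h3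
    have h5 : orderOf u = Nat.card (ZMod (p ^ 2))ˣ := orderOf_eq_card_of_forall_mem_zpowers hu
    rw [Nat.card_eq_fintype_card, ZMod.card_units_eq_totient, Nat.totient_prime_pow hp (by norm_num)]
      at h5
    rw [h5] at h4
    simpa using h4

/-- a chosen primitive root modulo `p ^ 2` -/
noncomputable def rt (p : ℕ) : ℕ :=
  if h : p.Prime ∧ p ≠ 2 then (exists_root p h.1 h.2).choose else 1

theorem rt_spec {p : ℕ} (hp : p.Prime) (hp2 : p ≠ 2) : Nat.Coprime (rt p) p ∧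
    ∀ m : ℕ, ((rt p : ℤ) ^ m ≡ 1 [ZMOD ((p ^ 2 : ℕ) : ℤ)]) → p * (p - 1) ∣ m := by
  unfold rt
  rw [dif_pos (⟨hp, hp2⟩ : p.Prime ∧ p ≠ 2)]
  exact (exists_root p hp hp2).choose_spec

section
variable {p e : ℕ} {a : ℤ} (hp : p.Prime) (hp2 : p ≠ 2)
  (ha : a ≡ (rt p : ℤ) ^ e [ZMOD ((p ^ 2 : ℕ) : ℤ)])
include hp hp2 ha

theorem dvd_of_pow (m : ℕ) (h : a ^ m ≡ 1 [ZMOD (p : ℤ)]) : p - 1 ∣ e * m := by
  have h1 : ((p : ℕ) : ℤ) ∣ a ^ m - 1 := (Int.modEq_iff_dvd.mp h.symm)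
  have h2 := dvd_sub_pow_of_dvd_sub (R := ℤ) (p := p) (a := a ^ m) (b := 1) h1 1
  have h3 : a ^ (m * p) ≡ 1 [ZMOD ((p ^ 2 : ℕ) : ℤ)] := by
    apply Int.ModEq.symm
    rw [Int.modEq_iff_dvd]
    push_cast
    rw [pow_mul]
    simpa using h2
  have h4 : ((rt p : ℤ) ^ e) ^ (m * p) ≡ 1 [ZMOD ((p ^ 2 : ℕ) : ℤ)] := (ha.pow _).symm.trans h3
  rw [← pow_mul] at h4
  have h5 := (rt_spec hp hp2).2 _ h4
  rw [show e * (m * p) = p * (e * m) by ring] at h5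
  exact Nat.dvd_of_mul_dvd_mul_left hp.pos h5

theorem pow_of_dvd (m : ℕ) (h : p - 1 ∣ e * m) : a ^ m ≡ 1 [ZMOD (p : ℤ)] := by
  have h0 : a ≡ (rt p : ℤ) ^ e [ZMOD (p : ℤ)] := by
    apply ha.of_dvd
    push_cast
    exact dvd_pow_self _ two_ne_zero
  refine (h0.pow m).trans ?_
  rw [← pow_mul]
  obtain ⟨c, hc⟩ := h
  rw [hc, pow_mul]
  have h1 : (rt p : ℤ) ^ (p - 1) ≡ 1 [ZMOD (p : ℤ)] := by
    apply Int.ModEq.pow_card_sub_one_eq_one hp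
    exact_mod_cast Nat.isCoprime_iff_coprime.mpr (rt_spec hp hp2).1
  simpa using h1.pow c

theorem coprime_a : IsCoprime a (p : ℤ) := by
  have h0 : a ≡ (rt p : ℤ) ^ e [ZMOD (p : ℤ)] := by
    apply ha.of_dvd
    push_cast
    exact dvd_pow_self _ two_ne_zero
  have h1 : IsCoprime ((rt p : ℤ) ^ e) (p : ℤ) :=
    (Nat.isCoprime_iff_coprime.mpr (rt_spec hp hp2).1).pow_left
  obtain ⟨k, hk⟩ := (Int.modEq_iff_dvd.mp h0)
  have h2 : a = (rt p : ℤ) ^ e + (-k) * p := by linarith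
  rw [h2]
  exact h1.add_mul_right_left (-k)

end

/-- the 2-adic analysis for one prime -/
theorem val_eq {s t v f k : ℕ} (ht : Odd t) (hst : s ∣ t) (h1 : 2 ^ v * s ∣ 2 ^ f * (2 ^ (k + 1) * t))
    (h2 : ¬ 2 ^ v * s ∣ 2 ^ f * (2 ^ k * t)) : v = f + (k + 1) := by
  have h3 : v ≤ f + (k + 1) := by
    have : 2 ^ v ∣ 2 ^ (f + (k + 1)) * t := by
      rw [pow_add, mul_assoc]
      exact (Dvd.intro _ rfl).trans h1
    have h4 : 2 ^ v ∣ 2 ^ (f + (k + 1)) :=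
      (Nat.Coprime.pow_left v (Nat.coprime_two_left.mpr ht)).dvd_of_dvd_mul_right this
    exact (Nat.pow_dvd_pow_iff_le_right (by norm_num)).mp h4
  have h5 : f + k < v := by
    by_contra h
    push Not at h
    apply h2
    rw [← mul_assoc, ← pow_add]
    exact mul_dvd_mul (pow_dvd_pow 2 h) hst
  omega

end Pool.Agent.H986S
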