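import Mathlib
import Pool.Agent.H986S.Wit

set_option autoImplicit false

namespace Pool.Agent.H986S

/-- exponent of two in `p - 1` -/
def v2 (p : ℕ) : ℕ := (p - 1).factorization 2

theorem odd_prime_of_dvd {n p : ℕ} (hn : Odd n) (hp : p.Prime) (h : p ∣ n) : p ≠ 2 := by
  rintro rfl
  exact (Nat.not_even_iff_odd.mpr hn) (even_iff_two_dvd.mpr h)

theorem passes_val {n : ℕ} (hn : Odd n) {a : ℤ} {f : ℕ → ℕ} (hf : ∀ p, f p ≤ 1)
    (hk : ∀ p : ℕ, p.Prime → p ∣ n → p - 1 ∣ n - 1)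
    (ha : ∀ p : ℕ, p.Prime → p ∣ n → a ≡ (rt p : ℤ) ^ (2 ^ f p) [ZMOD ((p ^ 2 : ℕ) : ℤ)])
    (h : Passes n a) : ∃ w : ℕ, ∀ p : ℕ, p.Prime → p ∣ n → v2 p = f p + w := by
  obtain ⟨u, t, ht, hut, h⟩ := h
  have base : ∀ p : ℕ, p.Prime → p ∣ n → ∃ s, p - 1 = 2 ^ v2 p * s ∧ s ∣ t := by
    intro p hp hpn
    refine ⟨(p - 1) / 2 ^ v2 p, (Nat.ordProj_mul_ordCompl_eq_self (p - 1) 2).symm, ?_⟩
    have hp1 : p - 1 ≠ 0 := by have := hp.two_le; omega
    have h1 : (p - 1) / 2 ^ v2 p ∣ 2 ^ u * t := by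
      rw [← hut]
      exact (Nat.ordCompl_dvd (p - 1) 2).trans (hk p hp hpn)
    have h2 : Nat.Coprime ((p - 1) / 2 ^ v2 p) (2 ^ u) := by
      apply Nat.Coprime.pow_right
      exact (Nat.coprime_ordCompl Nat.prime_two hp1).symm
    exact h2.dvd_of_dvd_mul_left h1
  rcases h with h | ⟨i, hi, h⟩
  · refine ⟨0, ?_⟩
    intro p hp hpn
    have hp2 := odd_prime_of_dvd hn hp hpn
    obtain ⟨s, hs, hst⟩ := base p hp hpn
    have h1 : a ^ t ≡ 1 [ZMOD (p : ℤ)] := h.of_dvd (by exact_mod_cast hpn)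
    have h2 := dvd_of_pow hp hp2 (ha p hp hpn) t h1
    have h3 : v2 p ≤ f p := by
      have h4 : 2 ^ v2 p ∣ 2 ^ f p * t := by
        rw [hs] at h2
        exact (Dvd.intro _ rfl).trans h2
      have h5 : 2 ^ v2 p ∣ 2 ^ f p :=
        (Nat.Coprime.pow_left _ (Nat.coprime_two_left.mpr ht)).dvd_of_dvd_mul_right h4
      exact (Nat.pow_dvd_pow_iff_le_right (by norm_num)).mp h5
    have h6 : 1 ≤ v2 p := by
      unfold v2
      have hp1 : p - 1 ≠ 0 := by have := hp.two_le; omega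
      rw [← Nat.Prime.dvd_iff_one_le_factorization Nat.prime_two hp1]
      have := hp.eq_two_or_odd
      omega
    have := hf p
    omega
  · refine ⟨i + 1, ?_⟩
    intro p hp hpn
    have hp2 := odd_prime_of_dvd hn hp hpn
    obtain ⟨s, hs, hst⟩ := base p hp hpn
    have h1 : a ^ (2 ^ i * t) ≡ -1 [ZMOD (p : ℤ)] := h.of_dvd (by exact_mod_cast hpn)
    have h2 : a ^ (2 ^ (i + 1) * t) ≡ 1 [ZMOD (p : ℤ)] := by
      have := h1.pow 2
      rw [← pow_mul] at this
      rw [show 2 ^ (i + 1) * t = 2 ^ i * t * 2 by ring]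
      simpa using this
    have h3 := dvd_of_pow hp hp2 (ha p hp hpn) _ h2
    apply val_eq ht hst
    · rw [← hs]; exact h3
    · rw [← hs]
      intro h4
      have h5 := pow_of_dvd hp hp2 (ha p hp hpn) _ h4
      have h6 : (1 : ℤ) ≡ -1 [ZMOD (p : ℤ)] := h5.symm.trans h1
      have h7 : (p : ℤ) ∣ -1 - 1 := Int.modEq_iff_dvd.mp h6
      have h8 : (p : ℤ) ∣ 2 := by
        have := (dvd_neg).mpr h7
        norm_num at this
        exact this
      have h9 : p ∣ 2 := by exact_mod_cast h8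
      have := Nat.le_of_dvd (by norm_num) h9
      have := hp.two_le
      omega

theorem passes_carm {n : ℕ} (hn : Odd n) (hn1 : 1 < n) {a : ℤ}
    (ha : ∀ p : ℕ, p.Prime → p ∣ n → a ≡ (rt p : ℤ) ^ 1 [ZMOD ((p ^ 2 : ℕ) : ℤ)])
    (h : Passes n a) : Squarefree n ∧ ∀ p : ℕ, p.Prime → p ∣ n → p - 1 ∣ n - 1 := by
  have h1 : a ^ (n - 1) ≡ 1 [ZMOD (n : ℤ)] := by
    obtain ⟨u, t, ht, hut, h⟩ := h
    rcases h with h | ⟨i, hi, h⟩
    · rw [hut, mul_comm, pow_mul]
      simpa using h.pow (2 ^ u)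
    · have h2 : n - 1 = 2 ^ i * t * 2 ^ (u - i) := by
        rw [hut]
        have : u = i + (u - i) := by omega
        calc 2 ^ u * t = 2 ^ (i + (u - i)) * t := by rw [← this]
          _ = _ := by rw [pow_add]; ring
      rw [h2, pow_mul]
      have h3 := h.pow (2 ^ (u - i))
      have h4 : ((-1 : ℤ)) ^ (2 ^ (u - i)) = 1 := by
        apply Even.neg_one_pow
        exact (Nat.even_pow.mpr ⟨even_two, by omega⟩)
      rwa [h4] at h3
  constructor
  · rw [Nat.squarefree_iff_prime_squarefree]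
    intro p hp hpp
    have hpn : p ∣ n := (Dvd.intro _ rfl).trans hpp
    have hp2 := odd_prime_of_dvd hn hp hpn
    have h2 : a ^ (n - 1) ≡ 1 [ZMOD ((p ^ 2 : ℕ) : ℤ)] := by
      apply h1.of_dvd
      rw [sq]
      exact_mod_cast hpp
    have h3 : (rt p : ℤ) ^ (n - 1) ≡ 1 [ZMOD ((p ^ 2 : ℕ) : ℤ)] := by
      have h4 := (ha p hp hpn).pow (n - 1)
      rw [pow_one] at h4
      exact h4.symm.trans h2
    have h5 := (rt_spec hp hp2).2 _ h3
    have h6 : p ∣ n - 1 := (Dvd.intro _ rfl).trans h5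
    have h7 : p ∣ 1 := by
      have h8 := Nat.dvd_sub hpn h6
      rwa [show n - (n - 1) = 1 by omega] at h8
    exact hp.one_lt.ne' (Nat.dvd_one.mp h7)
  · intro p hp hpn
    have hp2 := odd_prime_of_dvd hn hp hpn
    have h2 := dvd_of_pow hp hp2 (ha p hp hpn) (n - 1) (h1.of_dvd (by exact_mod_cast hpn))
    simpa using h2

/-- every odd composite number up to `x` has a witness in `W` -/
def Reliable (x : ℕ) (W : Finset ℤ) : Prop :=
  ∀ n : ℕ, n ≤ x → Odd n → 1 < n → ¬ n.Prime → ∃ a ∈ W, IsWitness n a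

theorem exists_crt (x : ℕ) (ρ : ℕ → ℕ) : ∃ k : ℕ, ∀ p : ℕ, p.Prime → p ≤ x →
    (k : ℤ) ≡ (ρ p : ℤ) [ZMOD ((p ^ 2 : ℕ) : ℤ)] := by
  classical
  set S : Finset ℕ := (Finset.range (x + 1)).filter Nat.Prime with hS
  have h1 : ∀ i ∈ S, i ^ 2 ≠ 0 := by
    intro i hi
    rw [hS, Finset.mem_filter] at hi
    exact pow_ne_zero 2 hi.2.ne_zero
  have h2 : Set.Pairwise (S : Set ℕ) (Function.onFun Nat.Coprime (fun p => p ^ 2)) := by
    intro i hi j hj hij
    rw [Finset.mem_coe, hS, Finset.mem_filter] at hi hj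
    exact Nat.Coprime.pow 2 2 ((Nat.coprime_primes hi.2 hj.2).mpr hij)
  obtain ⟨k, hk⟩ := Nat.chineseRemainderOfFinset (fun p => ρ p) (fun p => p ^ 2) S h1 h2
  refine ⟨k, ?_⟩
  intro p hp hpx
  have h3 := hk p (by rw [hS, Finset.mem_filter, Finset.mem_range]; exact ⟨by omega, hp⟩)
  exact (Int.natCast_modEq_iff (n := p ^ 2)).mpr h3

/-- the ternary digit of position `i` -/
def dg (i c : ℕ) : ℕ := c / 3 ^ i % 3

/-- residue prescribed by a ternary digit: a primitive root, its square, or zero -/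
noncomputable def rd (δ p : ℕ) : ℕ := if δ = 2 then 0 else rt p ^ (2 ^ δ)

/-- **From colourings to reliable sets.** -/
theorem reliable_of_colouring (x m : ℕ) (c : ℕ → ℕ)
    (hc : ∀ n : ℕ, n ≤ x → Odd n → 1 < n → ¬ n.Prime → Squarefree n →
      (∀ p : ℕ, p.Prime → p ∣ n → p - 1 ∣ n - 1) →
      ∃ i < m, ∃ p q : ℕ, p.Prime ∧ q.Prime ∧ p ∣ n ∧ q ∣ n ∧ dg i (c p) ≠ dg i (c q)) :
    ∃ W : Finset ℤ, W.card ≤ m + 1 ∧ Reliable x W := by
  classical
  choose K hK using fun ρ : ℕ → ℕ => exists_crt x ρ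
  set W : Finset ℤ := insert ((K (fun p => rt p) : ℕ) : ℤ)
    ((Finset.range m).image (fun i => ((K (fun p => rd (dg i (c p)) p) : ℕ) : ℤ)))
    with hW
  refine ⟨W, ?_, ?_⟩
  · refine (Finset.card_insert_le _ _).trans ?_
    have := Finset.card_image_le (s := Finset.range m)
      (f := fun i => ((K (fun p => rd (dg i (c p)) p) : ℕ) : ℤ))
    rw [Finset.card_range] at this
    omega
  · intro n hnx hn hn1 hnp
    by_contra hcon
    push Not at hcon
    have hple : ∀ p : ℕ, p ∣ n → p ≤ x := fun p hp => (Nat.le_of_dvd (by omega) hp).trans hnx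
    have pass : ∀ (a : ℤ) (e p : ℕ), a ∈ W → p.Prime → p ∣ n →
        a ≡ (rt p : ℤ) ^ e [ZMOD ((p ^ 2 : ℕ) : ℤ)] → Passes n a := by
      intro a e p0 haW hp0 hp0n ha
      by_contra hnp'
      apply hcon a haW
      refine ⟨?_, hnp'⟩
      intro hdvd
      have h1 : IsCoprime a (p0 : ℤ) := coprime_a hp0 (odd_prime_of_dvd hn hp0 hp0n) ha
      have h2 : (p0 : ℤ) ∣ a := (by exact_mod_cast hp0n : (p0 : ℤ) ∣ (n : ℤ)).trans hdvd
      have h4 : IsUnit (p0 : ℤ) := h1.isUnit_of_dvd' h2 dvd_rfl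
      have h5 := Int.isUnit_iff_natAbs_eq.mp h4
      rw [Int.natAbs_natCast] at h5
      exact hp0.one_lt.ne' h5
    obtain ⟨p0, hp0, hp0n⟩ := Nat.exists_prime_and_dvd (show n ≠ 1 by omega)
    have ha0 : ∀ p : ℕ, p.Prime → p ∣ n →
        ((K (fun p => rt p) : ℕ) : ℤ) ≡ (rt p : ℤ) ^ 1 [ZMOD ((p ^ 2 : ℕ) : ℤ)] := by
      intro p hp hpn
      rw [pow_one]
      exact hK (fun p => rt p) p hp (hple p hpn)
    have P0 := pass _ 1 p0 (by rw [hW]; exact Finset.mem_insert_self _ _) hp0 hp0n (ha0 p0 hp0 hp0n)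
    obtain ⟨hsq, hk⟩ := passes_carm hn hn1 ha0 P0
    obtain ⟨w0, hw0⟩ := passes_val hn (f := fun _ => 0) (fun _ => by norm_num) hk
      (fun p hp hpn => by simpa using ha0 p hp hpn) P0
    obtain ⟨i, hi, p, q, hp, hq, hpn, hqn, hne⟩ := hc n hnx hn hn1 hnp hsq hk
    have hd3 : ∀ z, dg i (c z) < 3 := fun z => Nat.mod_lt _ (by norm_num)
    set a : ℤ := ((K (fun p => rd (dg i (c p)) p) : ℕ) : ℤ) with hadef
    have haW : a ∈ W := by
      rw [hW]
      apply Finset.mem_insert_of_mem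
      exact Finset.mem_image.mpr ⟨i, Finset.mem_range.mpr hi, rfl⟩
    have haK : ∀ z : ℕ, z.Prime → z ∣ n → a ≡ (rd (dg i (c z)) z : ℤ) [ZMOD ((z ^ 2 : ℕ) : ℤ)] :=
      fun z hz hzn => hK (fun p => rd (dg i (c p)) p) z hz (hple z hzn)
    have haU : ∀ z : ℕ, z.Prime → z ∣ n → dg i (c z) ≠ 2 →
        a ≡ (rt z : ℤ) ^ (2 ^ dg i (c z)) [ZMOD ((z ^ 2 : ℕ) : ℤ)] := by
      intro z hz hzn hne2
      have := haK z hz hzn
      unfold rd at this
      rw [if_neg hne2] at this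
      push_cast at this ⊢
      exact this
    have haZ : ∀ z : ℕ, z.Prime → z ∣ n → dg i (c z) = 2 → ¬ Passes n a := by
      intro z hz hzn h2 hpass
      have h3 := haK z hz hzn
      unfold rd at h3
      rw [if_pos h2] at h3
      have h4 : a ≡ 0 [ZMOD (z : ℤ)] := by
        have h5 : a ≡ ((0 : ℕ) : ℤ) [ZMOD (z : ℤ)] := h3.of_dvd (by push_cast; exact dvd_pow_self _ two_ne_zero)
        simpa using h5
      have hz1 : ¬ (z : ℤ) ∣ 1 := by
        intro h
        have : z ∣ 1 := by exact_mod_cast h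
        exact hz.one_lt.ne' (Nat.dvd_one.mp this)
      have hzn' : (z : ℤ) ∣ (n : ℤ) := by exact_mod_cast hzn
      obtain ⟨u, t, ht, hut, h⟩ := hpass
      have ht0 : t ≠ 0 := by rintro rfl; exact (Nat.not_odd_zero) ht
      have hpow : ∀ m, m ≠ 0 → a ^ m ≡ 0 [ZMOD (z : ℤ)] := by
        intro m hm
        have := h4.pow m
        rwa [zero_pow hm] at this
      rcases h with h | ⟨j, hj, h⟩
      · have h6 : (0 : ℤ) ≡ 1 [ZMOD (z : ℤ)] := (hpow t ht0).symm.trans (h.of_dvd hzn')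
        apply hz1
        have := Int.modEq_iff_dvd.mp h6
        simpa using this
      · have h6 : (0 : ℤ) ≡ -1 [ZMOD (z : ℤ)] :=
          (hpow (2 ^ j * t) (Nat.mul_ne_zero (pow_ne_zero _ two_ne_zero) ht0)).symm.trans (h.of_dvd hzn')
        apply hz1
        have := Int.modEq_iff_dvd.mp h6
        simpa using this
    by_cases hz2 : ∃ z : ℕ, z.Prime ∧ z ∣ n ∧ dg i (c z) = 2
    · obtain ⟨z, hz, hzn, hzz⟩ := hz2
      have hall : ∀ w : ℕ, w.Prime → w ∣ n → dg i (c w) = 2 := by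
        intro w hw hwn
        by_contra h
        exact haZ z hz hzn hzz (pass a _ w haW hw hwn (haU w hw hwn h))
      exact hne ((hall p hp hpn).trans (hall q hq hqn).symm)
    · push Not at hz2
      have Pa := pass a _ p haW hp hpn (haU p hp hpn (hz2 p hp hpn))
      obtain ⟨w, hw⟩ := passes_val hn (f := fun z => if dg i (c z) = 1 then 1 else 0)
        (fun p => by split_ifs <;> norm_num) hk
        (fun z hz hzn => by
          have h1 := haU z hz hzn (hz2 z hz hzn)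
          have h2 := hz2 z hz hzn
          have h3 := hd3 z
          have h4 : dg i (c z) = if dg i (c z) = 1 then 1 else 0 := by split_ifs <;> omega
          rw [h4] at h1
          exact h1) Pa
      have a1 := hw0 p hp hpn
      have a2 := hw0 q hq hqn
      have a3 := hw p hp hpn
      have a4 := hw q hq hqn
      have b1 := hd3 p
      have b2 := hd3 q
      have b3 := hz2 p hp hpn
      have b4 := hz2 q hq hqn
      apply hne
      split_ifs at a3 a4 <;> omega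

theorem eq_of_dg : ∀ (m c c' : ℕ), c < 3 ^ m → c' < 3 ^ m → (∀ i < m, dg i c = dg i c') → c = c' := by
  intro m
  induction m with
  | zero => intro c c' h1 h2 _; simp at h1 h2; omega
  | succ m ih =>
    intro c c' h1 h2 h
    have h3 : c / 3 = c' / 3 := by
      apply ih
      · rw [pow_succ] at h1; omega
      · rw [pow_succ] at h2; omega
      · intro i hi
        have := h (i + 1) (by omega)
        unfold dg at this ⊢
        rw [pow_succ, mul_comm, ← Nat.div_div_eq_div_mul, ← Nat.div_div_eq_div_mul] at this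
        exact this
    have h4 := h 0 (by omega)
    unfold dg at h4
    simp only [pow_zero, Nat.div_one] at h4
    omega

end Pool.Agent.H986S
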