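import Mathlib
import Pool.Agent.H986S.Str
import Pool.Agent.H986S.WitB

set_option autoImplicit false

namespace Pool.Agent.H986S

/-- size parameter of the class `j` -/
def N0 (j : ℕ) : ℕ := Nat.sqrt (12 * 2 ^ j) + 1

theorem exists_mod (j : ℕ) : ∃ p, p.Prime ∧ N0 j < p ∧ p ≤ 2 * N0 j :=
  Nat.exists_prime_lt_and_le_two_mul (N0 j) (by unfold N0; omega)

/-- the modulus of the class `j` -/
noncomputable def Md (j : ℕ) : ℕ := (exists_mod j).choose

theorem Md_prime (j : ℕ) : (Md j).Prime := (exists_mod j).choose_spec.1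
theorem Md_gt (j : ℕ) : N0 j < Md j := (exists_mod j).choose_spec.2.1
theorem Md_le (j : ℕ) : Md j ≤ 2 * N0 j := (exists_mod j).choose_spec.2.2

theorem N0_sq (j : ℕ) : 12 * 2 ^ j < N0 j * N0 j := Nat.lt_succ_sqrt (12 * 2 ^ j)

/-- class index -/
def cl (p : ℕ) : ℕ := Nat.log 2 p

/-- the colour inside the class -/
noncomputable def wc (p : ℕ) : ℕ :=
  if p % Md (cl p) = 1 then Md (cl p) + p / Md (cl p) else p % Md (cl p)

/-- bound for the colours inside a class -/
def Bd (x : ℕ) : ℕ := 3 * (Nat.sqrt (12 * Nat.sqrt x) + 1) + 1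

/-- the colour of `p` -/
noncomputable def col (x p : ℕ) : ℕ :=
  if p ≤ Nat.sqrt (Nat.sqrt x) then p
  else Nat.sqrt (Nat.sqrt x) + 1 + (cl p * Bd x + wc p)

/-- bound for the number of colours -/
def Kd (x : ℕ) : ℕ := Nat.sqrt (Nat.sqrt x) + 1 + (Nat.log 2 x + 1) * Bd x

theorem wc_lt {x p : ℕ} (hp : 0 < p) (hpx : p * p ≤ x) : wc p < Bd x := by
  have h1 : p ≤ Nat.sqrt x := Nat.le_sqrt.mpr hpx
  have h2 : 2 ^ cl p ≤ p := Nat.pow_log_le_self 2 hp.ne'
  have h2' : p < 2 ^ (cl p + 1) := Nat.lt_pow_succ_log_self (by norm_num) p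
  have h3 : N0 (cl p) ≤ Nat.sqrt (12 * Nat.sqrt x) + 1 := by
    unfold N0
    have : Nat.sqrt (12 * 2 ^ cl p) ≤ Nat.sqrt (12 * Nat.sqrt x) :=
      Nat.sqrt_le_sqrt (by omega)
    omega
  have h4 := Md_le (cl p)
  have h5 := Md_gt (cl p)
  have h6 := N0_sq (cl p)
  have h7 : p / Md (cl p) < N0 (cl p) := by
    rw [Nat.div_lt_iff_lt_mul (by omega)]
    rw [pow_succ] at h2'
    nlinarith
  have h8 : p % Md (cl p) < Md (cl p) := Nat.mod_lt _ (by omega)
  unfold wc Bd
  split_ifs <;> omega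

theorem col_lt {x p : ℕ} (hp : 0 < p) (hpx : p * p ≤ x) : col x p < Kd x := by
  have h1 := wc_lt hp hpx
  have hple : p ≤ x := by nlinarith
  have h2 : cl p ≤ Nat.log 2 x := Nat.log_mono_right hple
  unfold col Kd
  split_ifs with h
  · omega
  · have h3 : cl p * Bd x ≤ Nat.log 2 x * Bd x := Nat.mul_le_mul_right _ h2
    rw [Nat.add_mul, one_mul]
    omega

theorem sep {B j w j' w' : ℕ} (h1 : w < B) (h2 : w' < B) (h : j * B + w = j' * B + w') :
    j = j' ∧ w = w' := by
  have hj : j = j' := by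
    rcases lt_trichotomy j j' with hlt | heq | hgt
    · exfalso
      have : (j + 1) * B ≤ j' * B := Nat.mul_le_mul_right _ hlt
      rw [Nat.add_mul, one_mul] at this
      omega
    · exact heq
    · exfalso
      have : (j' + 1) * B ≤ j * B := Nat.mul_le_mul_right _ hgt
      rw [Nat.add_mul, one_mul] at this
      omega
  subst hj
  exact ⟨rfl, by omega⟩

theorem three {x n p q r : ℕ} (hp : p.Prime) (hq : q.Prime) (hr : r.Prime) (hpq : p < q)
    (hqr : q < r) (hn : n = p * q * r) (kp : p - 1 ∣ n - 1) (kq : q - 1 ∣ n - 1)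
    (kr : r - 1 ∣ n - 1) (hy : Nat.sqrt (Nat.sqrt x) < p) (xp : p * p ≤ x) (xq : q * q ≤ x)
    (xr : r * r ≤ x) (c1 : col x p = col x q) (c2 : col x q = col x r) : False := by
  unfold col at c1 c2
  rw [if_neg (by omega), if_neg (by omega)] at c1 c2
  obtain ⟨j1, w1⟩ := sep (wc_lt hp.pos xp) (wc_lt hq.pos xq) (by omega : cl p * Bd x + wc p = cl q * Bd x + wc q)
  obtain ⟨j2, w2⟩ := sep (wc_lt hq.pos xq) (wc_lt hr.pos xr) (by omega : cl q * Bd x + wc q = cl r * Bd x + wc r)
  have e1 : 2 ^ cl p ≤ p := Nat.pow_log_le_self 2 hp.ne_zero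
  have e2 : r < 2 ^ (cl r + 1) := Nat.lt_pow_succ_log_self (by norm_num) r
  rw [← j2, ← j1, pow_succ] at e2
  have hM := Md_prime (cl p)
  have hM2 := hM.two_le
  have hMg := Md_gt (cl p)
  have hsq := N0_sq (cl p)
  have hMsq : 6 * (p - 1) < Md (cl p) ^ 2 := by
    have i1 : N0 (cl p) * N0 (cl p) ≤ Md (cl p) * Md (cl p) := Nat.mul_le_mul hMg.le hMg.le
    have i2 : p < r := by omega
    rw [sq]
    omega
  unfold wc at w1
  rw [← j1] at w1
  by_cases a1 : p % Md (cl p) = 1
  · rw [if_pos a1] at w1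
    by_cases a2 : q % Md (cl p) = 1
    · rw [if_pos a2] at w1
      have b1 := Nat.div_add_mod p (Md (cl p))
      have b2 := Nat.div_add_mod q (Md (cl p))
      rw [a1] at b1
      rw [a2, show q / Md (cl p) = p / Md (cl p) by omega] at b2
      omega
    · rw [if_neg a2] at w1
      have := Nat.mod_lt q (show 0 < Md (cl p) by omega)
      generalize p / Md (cl p) = z at w1
      omega
  · rw [if_neg a1] at w1
    by_cases a2 : q % Md (cl p) = 1
    · rw [if_pos a2] at w1
      have := Nat.mod_lt p (show 0 < Md (cl p) by omega)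
      generalize q / Md (cl p) = z at w1
      omega
    · rw [if_neg a2] at w1
      have hd : Md (cl p) ∣ (q - 1) - (p - 1) := by
        rw [show (q - 1) - (p - 1) = q - p by have := hp.pos; omega]
        exact (Nat.modEq_iff_dvd' hpq.le).mp w1
      obtain ⟨A, hA⟩ : ∃ A, p = A + 1 := ⟨p - 1, by have := hp.pos; omega⟩
      obtain ⟨B, hB⟩ : ∃ B, q = B + 1 := ⟨q - 1, by have := hq.pos; omega⟩
      obtain ⟨C, hC⟩ : ∃ C, r = C + 1 := ⟨r - 1, by have := hr.pos; omega⟩
      have n1 : n - 1 = A * ((B + 1) * (C + 1)) + (B * C + B + C) := by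
        rw [hn, hA, hB, hC]
        have : (A + 1) * (B + 1) * (C + 1) = A * ((B + 1) * (C + 1)) + (B * C + B + C) + 1 := by ring
        omega
      have n2 : n - 1 = B * ((A + 1) * (C + 1)) + (A * C + A + C) := by
        rw [hn, hA, hB, hC]
        have : (A + 1) * (B + 1) * (C + 1) = B * ((A + 1) * (C + 1)) + (A * C + A + C) + 1 := by ring
        omega
      have n3 : n - 1 = C * ((A + 1) * (B + 1)) + (A * B + A + B) := by
        rw [hn, hA, hB, hC]
        have : (A + 1) * (B + 1) * (C + 1) = C * ((A + 1) * (B + 1)) + (A * B + A + B) + 1 := by ring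
        omega
      have hA0 : 0 < A := by have := hp.two_le; omega
      have g1 : A ∣ B * C + B + C := by
        have h := kp
        rw [n1, show p - 1 = A by omega] at h
        exact (Nat.dvd_add_right (Dvd.intro _ rfl)).mp h
      have g2 : B ∣ A * C + A + C := by
        have h := kq
        rw [n2, show q - 1 = B by omega] at h
        exact (Nat.dvd_add_right (Dvd.intro _ rfl)).mp h
      have g3 : C ∣ A * B + A + B := by
        have h := kr
        rw [n3, show r - 1 = C by omega] at h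
        exact (Nat.dvd_add_right (Dvd.intro _ rfl)).mp h
      have h9 := struct3 (A := A) (B := B) (C := C) (M := Md (cl p)) hA0 (by omega) (by omega)
        (by omega) g1 g2 g3 hM (by rw [show p - 1 = A by omega] at hMsq; exact hMsq)
        (by rw [show q - 1 = B by omega, show p - 1 = A by omega] at hd; exact hd)
      apply a1
      obtain ⟨k, hk⟩ := h9
      have h10 : p = 1 + Md (cl p) * k := by omega
      have h11 : (1 + Md (cl p) * k) % Md (cl p) = 1 := by
        rw [Nat.add_mul_mod_self_left]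
        exact Nat.mod_eq_of_lt (by omega)
      rw [← h10] at h11
      exact h11

/-- the colouring property -/
theorem col_spec {x n : ℕ} (hnx : n ≤ x) (hn1 : 1 < n) (hnp : ¬ n.Prime) (hsq : Squarefree n)
    (hk : ∀ p : ℕ, p.Prime → p ∣ n → p - 1 ∣ n - 1)
    (hcol : ∀ p q : ℕ, p.Prime → q.Prime → p ∣ n → q ∣ n → col x p = col x q) : False := by
  have hprod := Nat.prod_primeFactors_of_squarefree hsq
  have hpp : ∀ p : ℕ, p.Prime → p ∣ n → p * p ≤ x := by
    intro p hp hpn
    obtain ⟨k, hk'⟩ := hpn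
    have h0 := hk p hp ⟨k, hk'⟩
    obtain ⟨A, hA⟩ : ∃ A, p = A + 1 := ⟨p - 1, by have := hp.pos; omega⟩
    have hk2 : 2 ≤ k := by
      rcases k with _ | _ | k
      · simp at hk'; omega
      · simp at hk'; rw [hk'] at hnp; exact absurd hp hnp
      · omega
    obtain ⟨l, hl⟩ : ∃ l, k = l + 1 := ⟨k - 1, by omega⟩
    have h1 : n - 1 = A * (l + 1) + l := by
      rw [hk', hA, hl]
      have : (A + 1) * (l + 1) = A * (l + 1) + l + 1 := by ring
      omega
    rw [h1, show p - 1 = A by omega] at h0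
    have h2 : A ∣ l := (Nat.dvd_add_right (Dvd.intro _ rfl)).mp h0
    have h3 : A ≤ l := Nat.le_of_dvd (by omega) h2
    have h4 : p ≤ k := by omega
    calc p * p ≤ p * k := Nat.mul_le_mul_left p h4
      _ = n := hk'.symm
      _ ≤ x := hnx
  have hmem : ∀ p, p ∈ n.primeFactors ↔ p.Prime ∧ p ∣ n := by
    intro p
    rw [Nat.mem_primeFactors]
    exact ⟨fun h => ⟨h.1, h.2.1⟩, fun h => ⟨h.1, h.2, by omega⟩⟩
  have hbig : ∀ p : ℕ, p.Prime → p ∣ n → Nat.sqrt (Nat.sqrt x) < p := by
    intro p hp hpn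
    by_contra hle
    push Not at hle
    have hone : n.primeFactors = {p} := by
      ext q
      rw [hmem, Finset.mem_singleton]
      constructor
      · rintro ⟨hq, hqn⟩
        have h := hcol p q hp hq hpn hqn
        unfold col at h
        rw [if_pos hle] at h
        split_ifs at h with h'
        · exact h.symm
        · omega
      · rintro rfl
        exact ⟨hp, hpn⟩
    rw [hone, Finset.prod_singleton] at hprod
    rw [hprod] at hp
    exact hnp hp
  have hcard : n.primeFactors.card < 4 := by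
    by_contra h
    push Not at h
    have h1 : (Nat.sqrt (Nat.sqrt x) + 1) ^ n.primeFactors.card ≤ n := by
      calc _ = ∏ _p ∈ n.primeFactors, (Nat.sqrt (Nat.sqrt x) + 1) := by
            rw [Finset.prod_const]
        _ ≤ ∏ p ∈ n.primeFactors, p := by
            apply Finset.prod_le_prod'
            intro p hp
            rw [hmem] at hp
            exact hbig p hp.1 hp.2
        _ = n := hprod
    have h2 : (Nat.sqrt (Nat.sqrt x) + 1) ^ 4 ≤ (Nat.sqrt (Nat.sqrt x) + 1) ^ n.primeFactors.card :=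
      Nat.pow_le_pow_right (by omega) h
    have h3 : Nat.sqrt x < (Nat.sqrt (Nat.sqrt x) + 1) * (Nat.sqrt (Nat.sqrt x) + 1) :=
      Nat.lt_succ_sqrt _
    have h4 : x < (Nat.sqrt x + 1) * (Nat.sqrt x + 1) := Nat.lt_succ_sqrt _
    have h5 : (Nat.sqrt x + 1) * (Nat.sqrt x + 1) ≤ (Nat.sqrt (Nat.sqrt x) + 1) ^ 4 := by
      have : (Nat.sqrt (Nat.sqrt x) + 1) ^ 4 = ((Nat.sqrt (Nat.sqrt x) + 1) * (Nat.sqrt (Nat.sqrt x) + 1))
        * ((Nat.sqrt (Nat.sqrt x) + 1) * (Nat.sqrt (Nat.sqrt x) + 1)) := by ring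
      rw [this]
      exact Nat.mul_le_mul h3 h3
    omega
  have hthree : ∀ p q r : ℕ, p < q → q < r → n.primeFactors = {p, q, r} → False := by
    intro p q r hpq hqr hS
    have mp : p.Prime ∧ p ∣ n := (hmem p).mp (by rw [hS]; simp)
    have mq : q.Prime ∧ q ∣ n := (hmem q).mp (by rw [hS]; simp)
    have mr : r.Prime ∧ r ∣ n := (hmem r).mp (by rw [hS]; simp)
    rw [hS, Finset.prod_insert (by simp; omega), Finset.prod_insert (by simp; omega),
      Finset.prod_singleton] at hprod
    exact three mp.1 mq.1 mr.1 hpq hqr (by rw [← hprod]; ring) (hk p mp.1 mp.2) (hk q mq.1 mq.2)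
      (hk r mr.1 mr.2) (hbig p mp.1 mp.2) (hpp p mp.1 mp.2) (hpp q mq.1 mq.2) (hpp r mr.1 mr.2)
      (hcol p q mp.1 mq.1 mp.2 mq.2) (hcol q r mq.1 mr.1 mq.2 mr.2)
  have htwo : ∀ p q : ℕ, p < q → n.primeFactors = {p, q} → False := by
    intro p q hpq hS
    have mp : p.Prime ∧ p ∣ n := (hmem p).mp (by rw [hS]; simp)
    have mq : q.Prime ∧ q ∣ n := (hmem q).mp (by rw [hS]; simp)
    rw [hS, Finset.prod_insert (by simp; omega), Finset.prod_singleton] at hprod
    have h1 := hk q mq.1 mq.2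
    obtain ⟨A, hA⟩ : ∃ A, p = A + 1 := ⟨p - 1, by have := mp.1.pos; omega⟩
    obtain ⟨B, hB⟩ : ∃ B, q = B + 1 := ⟨q - 1, by have := mq.1.pos; omega⟩
    have h2 : n - 1 = B * (A + 1) + A := by
      rw [← hprod, hA, hB]
      have : (A + 1) * (B + 1) = B * (A + 1) + A + 1 := by ring
      omega
    rw [h2, show q - 1 = B by omega] at h1
    have h3 : B ∣ A := (Nat.dvd_add_right (Dvd.intro _ rfl)).mp h1
    have h4 := Nat.le_of_dvd (by have := mp.1.two_le; omega) h3
    omega
  have h0123 : n.primeFactors.card = 0 ∨ n.primeFactors.card = 1 ∨ n.primeFactors.card = 2 ∨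
      n.primeFactors.card = 3 := by omega
  rcases h0123 with h | h | h | h
  · rw [Finset.card_eq_zero] at h
    rw [h, Finset.prod_empty] at hprod
    omega
  · obtain ⟨p, hp⟩ := Finset.card_eq_one.mp h
    have mp : p.Prime ∧ p ∣ n := (hmem p).mp (by rw [hp]; simp)
    rw [hp, Finset.prod_singleton] at hprod
    rw [← hprod] at hnp
    exact hnp mp.1
  · obtain ⟨p, q, hne, hS⟩ := Finset.card_eq_two.mp h
    rcases lt_or_gt_of_ne hne with hlt | hgt
    · exact htwo p q hlt hS
    · exact htwo q p hgt (by rw [hS, Finset.pair_comm])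
  · obtain ⟨p, q, r, h1, h2, h3, hS⟩ := Finset.card_eq_three.mp h
    rcases lt_or_gt_of_ne h1 with a1 | a1 <;> rcases lt_or_gt_of_ne h2 with a2 | a2 <;>
      rcases lt_or_gt_of_ne h3 with a3 | a3
    · exact hthree p q r a1 a3 hS
    · exact hthree p r q a2 a3 (by rw [hS]; ext z; simp; tauto)
    · omega
    · exact hthree r p q a2 a1 (by rw [hS]; ext z; simp; tauto)
    · exact hthree q p r a1 a2 (by rw [hS]; ext z; simp; tauto)
    · omega
    · exact hthree q r p a3 a2 (by rw [hS]; ext z; simp; tauto)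
    · exact hthree r q p a3 a1 (by rw [hS]; ext z; simp; tauto)

/-- **The discrete form of the upper bound.** -/
theorem reliable_discrete (x : ℕ) : ∃ W : Finset ℤ, W.card ≤ Nat.clog 3 (Kd x) + 1 ∧ Reliable x W := by
  apply reliable_of_colouring x (Nat.clog 3 (Kd x)) (col x)
  intro n hnx hn hn1 hnp hsq hk
  by_contra hcon
  push Not at hcon
  apply col_spec hnx hn1 hnp hsq hk
  intro p q hp hq hpn hqn
  have hlt : ∀ p : ℕ, p.Prime → p ∣ n → col x p < 3 ^ Nat.clog 3 (Kd x) := by
    intro p hp hpn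
    refine lt_of_lt_of_le (col_lt hp.pos ?_) (Nat.le_pow_clog (by norm_num) _)
    obtain ⟨k, hk'⟩ := hpn
    have h0 := hk p hp ⟨k, hk'⟩
    obtain ⟨A, hA⟩ : ∃ A, p = A + 1 := ⟨p - 1, by have := hp.pos; omega⟩
    have hk2 : 2 ≤ k := by
      rcases k with _ | _ | k
      · simp at hk'; omega
      · simp at hk'; rw [hk'] at hnp; exact absurd hp hnp
      · omega
    obtain ⟨l, hl⟩ : ∃ l, k = l + 1 := ⟨k - 1, by omega⟩
    have h1 : n - 1 = A * (l + 1) + l := by
      rw [hk', hA, hl]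
      have : (A + 1) * (l + 1) = A * (l + 1) + l + 1 := by ring
      omega
    rw [h1, show p - 1 = A by omega] at h0
    have h2 : A ∣ l := (Nat.dvd_add_right (Dvd.intro _ rfl)).mp h0
    have h3 : A ≤ l := Nat.le_of_dvd (by omega) h2
    have h4 : p ≤ k := by omega
    calc p * p ≤ p * k := Nat.mul_le_mul_left p h4
      _ = n := hk'.symm
      _ ≤ x := hnx
  apply eq_of_dg (Nat.clog 3 (Kd x)) _ _ (hlt p hp hpn) (hlt q hq hqn)
  intro i hi
  exact hcon i hi p q hp hq hpn hqn

end Pool.Agent.H986S
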