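import Mathlib
import Pool.Agent.H986S.Col

set_option autoImplicit false

namespace Pool.Agent.H986S

open Filter Real

theorem Kd_le {x : ℝ} (hx : 1 ≤ x) :
    ((Kd ⌊x⌋₊ : ℕ) : ℝ) ≤ x ^ (1 / 4 : ℝ) * (18 + 32 * Real.log x) := by
  set X := ⌊x⌋₊ with hX
  set r := x ^ (1 / 4 : ℝ) with hr
  have hx0 : 0 < x := by linarith
  have hr0 : 0 < r := Real.rpow_pos_of_pos hx0 _
  have hr1 : 1 ≤ r := Real.one_le_rpow hx (by norm_num)
  have hr4 : r ^ 4 = x := by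
    rw [hr, ← Real.rpow_natCast, ← Real.rpow_mul hx0.le]
    norm_num
  have hXx : (X : ℝ) ≤ x := Nat.floor_le hx0.le
  have hX1 : 1 ≤ X := by rw [hX]; exact Nat.le_floor (by simpa using hx)
  have h1 : ((Nat.sqrt X : ℕ) : ℝ) ^ 2 ≤ (r ^ 2) ^ 2 := by
    have : (Nat.sqrt X) ^ 2 ≤ X := Nat.sqrt_le' X
    have h2 : (((Nat.sqrt X) ^ 2 : ℕ) : ℝ) ≤ X := by exact_mod_cast this
    push_cast at h2
    calc _ ≤ (X : ℝ) := h2
      _ ≤ x := hXx
      _ = _ := by rw [← hr4]; ring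
  have h2 : ((Nat.sqrt X : ℕ) : ℝ) ≤ r ^ 2 := by
    exact le_of_sq_le_sq h1 (by positivity)
  have h3 : ((Nat.sqrt (Nat.sqrt X) : ℕ) : ℝ) ≤ r := by
    have : (Nat.sqrt (Nat.sqrt X)) ^ 2 ≤ Nat.sqrt X := Nat.sqrt_le' _
    have h4 : (((Nat.sqrt (Nat.sqrt X)) ^ 2 : ℕ) : ℝ) ≤ (Nat.sqrt X : ℕ) := by exact_mod_cast this
    push_cast at h4
    exact le_of_sq_le_sq (h4.trans h2) hr0.le
  have h4 : ((Nat.sqrt (12 * Nat.sqrt X) : ℕ) : ℝ) ≤ 4 * r := by
    have : (Nat.sqrt (12 * Nat.sqrt X)) ^ 2 ≤ 12 * Nat.sqrt X := Nat.sqrt_le' _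
    have h5 : (((Nat.sqrt (12 * Nat.sqrt X)) ^ 2 : ℕ) : ℝ) ≤ ((12 * Nat.sqrt X : ℕ) : ℝ) := by
      exact_mod_cast this
    push_cast at h5
    apply le_of_sq_le_sq _ (by positivity)
    nlinarith
  have hlog0 : 0 ≤ Real.log x := Real.log_nonneg hx
  have h5 : ((Nat.log 2 X : ℕ) : ℝ) ≤ 2 * Real.log x := by
    have h6 : 2 ^ Nat.log 2 X ≤ X := Nat.pow_log_le_self 2 (by omega)
    have h7 : ((2 : ℝ)) ^ (Nat.log 2 X) ≤ x := by
      have : ((2 ^ Nat.log 2 X : ℕ) : ℝ) ≤ X := by exact_mod_cast h6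
      push_cast at this
      exact this.trans hXx
    have h8 := Real.log_le_log (by positivity) h7
    rw [Real.log_pow] at h8
    have h9 := Real.log_two_gt_d9
    have h10 : (0 : ℝ) ≤ (Nat.log 2 X : ℕ) := by positivity
    nlinarith
  unfold Kd Bd
  push_cast
  have h6 : (0 : ℝ) ≤ (Nat.log 2 X : ℕ) := by positivity
  have h7 : ((Nat.log 2 X : ℕ) : ℝ) + 1 ≤ 2 * Real.log x + 1 := by linarith
  have h8 : 3 * (((Nat.sqrt (12 * Nat.sqrt X) : ℕ) : ℝ) + 1) + 1 ≤ 16 * r := by linarith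
  have h9 : (((Nat.log 2 X : ℕ) : ℝ) + 1) * (3 * (((Nat.sqrt (12 * Nat.sqrt X) : ℕ) : ℝ) + 1) + 1)
      ≤ (2 * Real.log x + 1) * (16 * r) :=
    mul_le_mul h7 h8 (by positivity) (by positivity)
  nlinarith

theorem upper (ε : ℝ) (hε : 0 < ε) : ∀ᶠ x : ℝ in atTop, ∃ W : Finset ℤ,
    (∀ n : ℕ, (n : ℝ) ≤ x → Odd n → 1 < n → ¬ n.Prime → ∃ a ∈ W, IsWitness n a) ∧
    (W.card : ℝ) ≤ (1 / (4 * Real.log 3) + ε) * Real.log x := by
  have hl3 : 0 < Real.log 3 := Real.log_pos (by norm_num)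
  set δ : ℝ := ε * Real.log 3 / 2 with hδ
  have hδ0 : 0 < δ := by positivity
  have e1 : ∀ᶠ x : ℝ in atTop, 18 + 32 * Real.log x ≤ x ^ δ := by
    have hl := (isLittleO_log_rpow_atTop hδ0).bound (by norm_num : (0 : ℝ) < 1 / 64)
    filter_upwards [hl, (tendsto_rpow_atTop hδ0).eventually_ge_atTop 36, eventually_ge_atTop 1]
      with x hx1 hx2 hx3
    rw [Real.norm_of_nonneg (Real.log_nonneg hx3), Real.norm_of_nonneg (by positivity)] at hx1
    linarith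
  have e2 : ∀ᶠ x : ℝ in atTop, 2 ≤ ε / 2 * Real.log x := by
    have := Real.tendsto_log_atTop.eventually_ge_atTop (4 / ε)
    filter_upwards [this] with x hx
    rw [div_le_iff₀ hε] at hx
    linarith
  filter_upwards [e1, e2, eventually_ge_atTop 1] with x hx1 hx2 hx3
  have hx0 : 0 < x := by linarith
  obtain ⟨W, hW1, hW2⟩ := reliable_discrete ⌊x⌋₊
  refine ⟨W, ?_, ?_⟩
  · intro n hn
    exact hW2 n (Nat.le_floor hn)
  · have hK := Kd_le hx3
    set K := Kd ⌊x⌋₊ with hKdef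
    have hK1 : 1 ≤ K := by rw [hKdef]; unfold Kd; omega
    have hK1' : (1 : ℝ) ≤ K := by exact_mod_cast hK1
    have h1 : (K : ℝ) ≤ x ^ (1 / 4 + δ) := by
      rw [Real.rpow_add hx0]
      exact hK.trans (mul_le_mul_of_nonneg_left hx1 (by positivity))
    have h2 : Real.log K ≤ (1 / 4 + δ) * Real.log x := by
      have := Real.log_le_log (by linarith) h1
      rwa [Real.log_rpow hx0] at this
    have h3 : ((Nat.clog 3 K : ℕ) : ℝ) ≤ Real.log K / Real.log 3 + 1 := by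
      have h4 := Real.natCeil_logb_natCast 3 K
      have h5 : 0 ≤ Real.logb 3 K := Real.logb_nonneg (by norm_num) hK1'
      have h6 := Nat.ceil_lt_add_one h5
      have h7 : ((Nat.clog 3 K : ℕ) : ℝ) < Real.logb 3 K + 1 := by
        rw [← h4]
        exact_mod_cast h6
      rw [Real.logb] at h7
      exact h7.le
    have h4 : (W.card : ℝ) ≤ Nat.clog 3 K + 1 := by exact_mod_cast hW1
    have h5 : Real.log K / Real.log 3 ≤ (1 / (4 * Real.log 3) + ε / 2) * Real.log x := by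
      rw [div_le_iff₀ hl3]
      calc Real.log K ≤ (1 / 4 + δ) * Real.log x := h2
        _ = _ := by rw [hδ]; field_simp
    linarith

end Pool.Agent.H986S
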