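import Mathlib
import Pool.Agent.H986S.Col

set_option autoImplicit false

namespace Pool.Agent.H986S

theorem passes_val' {n : ℕ} (hn : Odd n) {a : ℤ} {f : ℕ → ℕ}
    (hf : ∀ p, p.Prime → p ∣ n → f p ≤ v2 p)
    (hk : ∀ p : ℕ, p.Prime → p ∣ n → p - 1 ∣ n - 1)
    (ha : ∀ p : ℕ, p.Prime → p ∣ n → a ≡ (rt p : ℤ) ^ (2 ^ f p) [ZMOD ((p ^ 2 : ℕ) : ℤ)])
    (h : Passes n a) : ∃ w : ℕ, ∀ p : ℕ, p.Prime → p ∣ n → v2 p = f p + w := by
  obtain ⟨u, t, ht, hut, h⟩ := h
  have base : ∀ p : ℕ, p.Prime → p ∣ n → ∃ s, p - 1 = 2 ^ v2 p * s ∧ s ∣ t := by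
    intro p hp hpn
    refine ⟨(p - 1) / 2 ^ v2 p, (Nat.ordProj_mul_ordCompl_eq_self (p - 1) 2).symm, ?_⟩
    have hp1 : p - 1 ≠ 0 := by have := hp.two_le; omega
    have h1 : (p - 1) / 2 ^ v2 p ∣ 2 ^ u * t := by
      rw [← hut]
      exact (Nat.ordCompl_dvd (p - 1) 2).trans (hk p hp hpn)
    have h2 : Nat.Coprime ((p - 1) / 2 ^ v2 p) (2 ^ u) := by
      apply Nat.Coprime.pow_right
      exact (Nat.coprime_ordCompl Nat.prime_two hp1).symm
    exact h2.dvd_of_dvd_mul_left h1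
  rcases h with h | ⟨i, hi, h⟩
  · refine ⟨0, ?_⟩
    intro p hp hpn
    have hp2 := odd_prime_of_dvd hn hp hpn
    obtain ⟨s, hs, hst⟩ := base p hp hpn
    have h1 : a ^ t ≡ 1 [ZMOD (p : ℤ)] := h.of_dvd (by exact_mod_cast hpn)
    have h2 := dvd_of_pow hp hp2 (ha p hp hpn) t h1
    have h3 : v2 p ≤ f p := by
      have h4 : 2 ^ v2 p ∣ 2 ^ f p * t := by
        rw [hs] at h2
        exact (Dvd.intro _ rfl).trans h2
      have h5 : 2 ^ v2 p ∣ 2 ^ f p :=
        (Nat.Coprime.pow_left _ (Nat.coprime_two_left.mpr ht)).dvd_of_dvd_mul_right h4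
      exact (Nat.pow_dvd_pow_iff_le_right (by norm_num)).mp h5
    have := hf p hp hpn
    omega
  · refine ⟨i + 1, ?_⟩
    intro p hp hpn
    have hp2 := odd_prime_of_dvd hn hp hpn
    obtain ⟨s, hs, hst⟩ := base p hp hpn
    have h1 : a ^ (2 ^ i * t) ≡ -1 [ZMOD (p : ℤ)] := h.of_dvd (by exact_mod_cast hpn)
    have h2 : a ^ (2 ^ (i + 1) * t) ≡ 1 [ZMOD (p : ℤ)] := by
      have := h1.pow 2
      rw [← pow_mul] at this
      rw [show 2 ^ (i + 1) * t = 2 ^ i * t * 2 by ring]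
      simpa using this
    have h3 := dvd_of_pow hp hp2 (ha p hp hpn) _ h2
    apply val_eq ht hst
    · rw [← hs]; exact h3
    · rw [← hs]
      intro h4
      have h5 := pow_of_dvd hp hp2 (ha p hp hpn) _ h4
      have h6 : (1 : ℤ) ≡ -1 [ZMOD (p : ℤ)] := h5.symm.trans h1
      have h7 : (p : ℤ) ∣ -1 - 1 := Int.modEq_iff_dvd.mp h6
      have h8 : (p : ℤ) ∣ 2 := by
        have := (dvd_neg).mpr h7
        norm_num at this
        exact this
      have h9 : p ∣ 2 := by exact_mod_cast h8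
      have := Nat.le_of_dvd (by norm_num) h9
      have := hp.two_le
      omega

/-- the type of the base `a` at the prime `p` -/
noncomputable def ty (a : ℤ) (p : ℕ) : ℕ :=
  if (p : ℤ) ∣ a then 0 else (orderOf (a : ZMod p)).factorization 2 + 1

theorem ty_le {a : ℤ} {p : ℕ} (hp : p.Prime) : ty a p ≤ v2 p + 1 := by
  unfold ty
  split_ifs with h
  · omega
  · have : Fact p.Prime := ⟨hp⟩
    have h0 : (a : ZMod p) ≠ 0 := by
      intro h1
      exact h ((ZMod.intCast_zmod_eq_zero_iff_dvd a p).mp h1)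
    have h1 : orderOf (a : ZMod p) ∣ p - 1 := ZMod.orderOf_dvd_card_sub_one h0
    have hp1 : p - 1 ≠ 0 := by have := hp.two_le; omega
    have h2 := (Nat.factorization_le_iff_dvd (ne_zero_of_dvd_ne_zero hp1 h1) hp1).mpr h1 2
    unfold v2
    omega

theorem dvd_of_sq {n : ℕ} (hsq : Squarefree n) (z : ℤ)
    (h : ∀ p : ℕ, p.Prime → p ∣ n → (p : ℤ) ∣ z) : (n : ℤ) ∣ z := by
  rw [Int.natCast_dvd]
  rw [← Nat.prod_primeFactors_of_squarefree hsq]
  apply Finset.prod_primes_dvd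
  · intro p hp
    exact (Nat.prime_of_mem_primeFactors hp).prime
  · intro p hp
    have := h p (Nat.prime_of_mem_primeFactors hp) (Nat.dvd_of_mem_primeFactors hp)
    exact Int.natCast_dvd.mp this

theorem of_types {n : ℕ} (hn1 : 1 < n) (hsq : Squarefree n)
    (hk : ∀ p : ℕ, p.Prime → p ∣ n → p - 1 ∣ n - 1) {a : ℤ} (v : ℕ)
    (h : ∀ p : ℕ, p.Prime → p ∣ n → ty a p = v) : (n : ℤ) ∣ a ∨ Passes n a := by
  rcases v with _ | w
  · left
    apply dvd_of_sq hsq
    intro p hp hpn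
    have := h p hp hpn
    unfold ty at this
    split_ifs at this with h1
    exact h1
  · right
    obtain ⟨u, t, ht, hut⟩ := Nat.exists_eq_two_pow_mul_odd (n := n - 1) (by omega)
    have base : ∀ p : ℕ, p.Prime → p ∣ n →
        ∃ s, orderOf (a : ZMod p) = 2 ^ w * s ∧ Odd s ∧ s ∣ t ∧ w ≤ u ∧ (a : ZMod p) ≠ 0 := by
      intro p hp hpn
      have : Fact p.Prime := ⟨hp⟩
      have h1 := h p hp hpn
      unfold ty at h1
      split_ifs at h1 with hd
      have hw : (orderOf (a : ZMod p)).factorization 2 = w := by omega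
      have h0 : (a : ZMod p) ≠ 0 := by
        intro h1
        exact hd ((ZMod.intCast_zmod_eq_zero_iff_dvd a p).mp h1)
      have h2 : orderOf (a : ZMod p) ∣ p - 1 := ZMod.orderOf_dvd_card_sub_one h0
      have hp1 : p - 1 ≠ 0 := by have := hp.two_le; omega
      have hne : orderOf (a : ZMod p) ≠ 0 := ne_zero_of_dvd_ne_zero hp1 h2
      have h3 := Nat.ordProj_mul_ordCompl_eq_self (orderOf (a : ZMod p)) 2
      rw [hw] at h3
      have h4 := Nat.coprime_ordCompl Nat.prime_two hne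
      rw [hw] at h4
      refine ⟨orderOf (a : ZMod p) / 2 ^ w, h3.symm, Nat.coprime_two_left.mp h4, ?_, ?_, h0⟩
      · have h5 : orderOf (a : ZMod p) / 2 ^ w ∣ 2 ^ u * t := by
          rw [← hut]
          exact ((Dvd.intro_left _ h3).trans h2).trans (hk p hp hpn)
        exact (Nat.Coprime.pow_right u h4.symm).dvd_of_dvd_mul_left h5
      · have h5 : 2 ^ w ∣ 2 ^ u * t := by
          rw [← hut]
          exact ((Dvd.intro _ h3).trans h2).trans (hk p hp hpn)
        have h6 : 2 ^ w ∣ 2 ^ u :=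
          (Nat.Coprime.pow_left w (Nat.coprime_two_left.mpr ht)).dvd_of_dvd_mul_right h5
        exact (Nat.pow_dvd_pow_iff_le_right (by norm_num)).mp h6
    rcases w with _ | w
    · refine ⟨u, t, ht, hut, Or.inl ?_⟩
      apply Int.ModEq.symm
      rw [Int.modEq_iff_dvd]
      apply dvd_of_sq hsq
      intro p hp hpn
      obtain ⟨s, hs, hodd, hst, _, h0⟩ := base p hp hpn
      rw [← ZMod.intCast_zmod_eq_zero_iff_dvd]
      push_cast
      rw [sub_eq_zero]
      apply orderOf_dvd_iff_pow_eq_one.mp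
      rw [hs]
      simpa using hst
    · obtain ⟨p0, hp0, hp0n⟩ := Nat.exists_prime_and_dvd (show n ≠ 1 by omega)
      obtain ⟨_, _, _, _, hwu, _⟩ := base p0 hp0 hp0n
      refine ⟨u, t, ht, hut, Or.inr ⟨w, by omega, ?_⟩⟩
      apply Int.ModEq.symm
      rw [Int.modEq_iff_dvd]
      apply dvd_of_sq hsq
      intro p hp hpn
      have : Fact p.Prime := ⟨hp⟩
      obtain ⟨s, hs, hodd, hst, _, h0⟩ := base p hp hpn
      rw [← ZMod.intCast_zmod_eq_zero_iff_dvd]
      push_cast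
      rw [sub_neg_eq_add, add_eq_zero_iff_eq_neg]
      have h1 : ((a : ZMod p) ^ (2 ^ w * t)) ^ 2 = 1 := by
        rw [← pow_mul]
        apply orderOf_dvd_iff_pow_eq_one.mp
        rw [hs, pow_succ, show 2 ^ w * t * 2 = 2 ^ w * 2 * t by ring]
        exact Nat.mul_dvd_mul_left _ hst
      have h2 : (a : ZMod p) ^ (2 ^ w * t) ≠ 1 := by
        intro h3
        have h4 := orderOf_dvd_iff_pow_eq_one.mpr h3
        rw [hs, pow_succ, mul_assoc] at h4
        have h5 : 2 * s ∣ t := Nat.dvd_of_mul_dvd_mul_left (by positivity) h4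
        have h6 : 2 ∣ t := (Dvd.intro _ rfl).trans h5
        exact (Nat.not_even_iff_odd.mpr ht) (even_iff_two_dvd.mpr h6)
      rw [sq] at h1
      rcases mul_self_eq_one_iff.mp h1 with h3 | h3
      · exact absurd h3 h2
      · exact h3


/-- Carmichael numbers, in Korselt's form -/
def Carm (n : ℕ) : Prop :=
  1 < n ∧ ¬ n.Prime ∧ Squarefree n ∧ ∀ p : ℕ, p.Prime → p ∣ n → p - 1 ∣ n - 1

/-- every Carmichael number up to `x` has a witness in `W` -/
def RelC (x : ℕ) (W : Finset ℤ) : Prop :=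
  ∀ n : ℕ, n ≤ x → Carm n → ∃ a ∈ W, IsWitness n a

/-- `w` maps on the primes, separating the primes of each Carmichael number -/
def Digits (x w : ℕ) : Prop :=
  ∃ c : Fin w → ℕ → ℕ, (∀ i p, p.Prime → c i p ≤ v2 p + 1) ∧
    ∀ n : ℕ, n ≤ x → Carm n →
      ∃ i, ∃ p q : ℕ, p.Prime ∧ q.Prime ∧ p ∣ n ∧ q ∣ n ∧ c i p ≠ c i q

theorem Carm.odd {n : ℕ} (h : Carm n) : Odd n := by
  obtain ⟨h1, h2, h3, h4⟩ := h
  by_contra hodd
  rw [Nat.not_odd_iff_even] at hodd
  obtain ⟨m, hm⟩ := hodd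
  have hm1 : m ≠ 1 := by
    rintro rfl
    exact h2 (by rw [hm]; norm_num)
  obtain ⟨q, hq, hqm⟩ := Nat.exists_prime_and_dvd hm1
  have hqn : q ∣ n := by rw [hm]; exact hqm.trans ⟨2, by ring⟩
  rcases hq.eq_two_or_odd with h5 | h5
  · subst h5
    obtain ⟨k, hk⟩ := hqm
    have h6 : 2 * 2 ∣ n := ⟨k, by rw [hm, hk]; ring⟩
    have := h3 2 h6
    exact absurd (Nat.isUnit_iff.mp this) (by norm_num)
  · have h6 := h4 q hq hqn
    have h7 : 2 ∣ q - 1 := by omega
    have h8 := h7.trans h6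
    omega

theorem digits_of_relC {x : ℕ} {W : Finset ℤ} (h : RelC x W) : Digits x W.card := by
  refine ⟨fun i p => ty ((W.equivFin.symm i : W) : ℤ) p, fun i p hp => ty_le hp, ?_⟩
  intro n hnx hn
  obtain ⟨a, haW, hnd, hnp⟩ := h n hnx hn
  by_contra hcon
  push Not at hcon
  obtain ⟨h1, h2, h3, h4⟩ := hn
  obtain ⟨p0, hp0, hp0n⟩ := Nat.exists_prime_and_dvd (show n ≠ 1 by omega)
  rcases of_types h1 h3 h4 (a := a) (ty a p0) (by
    intro p hp hpn
    have h5 := hcon (W.equivFin ⟨a, haW⟩) p p0 hp hp0 hpn hp0n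
    simpa using h5) with h5 | h5
  · exact hnd h5
  · exact hnp h5

/-- the residue prescribed by a digit -/
noncomputable def rg (c p : ℕ) : ℕ := if c = 0 then 0 else rt p ^ (2 ^ (v2 p + 1 - c))

theorem relC_of_digits {x w : ℕ} (h : Digits x w) : ∃ W : Finset ℤ, W.card ≤ w ∧ RelC x W := by
  classical
  obtain ⟨c, hc1, hc2⟩ := h
  choose K hK using fun ρ : ℕ → ℕ => exists_crt x ρ
  refine ⟨Finset.univ.image (fun i : Fin w => ((K (fun p => rg (c i p) p) : ℕ) : ℤ)), ?_, ?_⟩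
  · refine Finset.card_image_le.trans ?_
    simp
  · intro n hnx hn
    have hodd := hn.odd
    obtain ⟨i, p, q, hp, hq, hpn, hqn, hne⟩ := hc2 n hnx hn
    obtain ⟨h1, h2, h3, h4⟩ := hn
    have hple : ∀ p : ℕ, p ∣ n → p ≤ x := fun p hp => (Nat.le_of_dvd (by omega) hp).trans hnx
    set a : ℤ := ((K (fun p => rg (c i p) p) : ℕ) : ℤ) with hadef
    refine ⟨a, Finset.mem_image.mpr ⟨i, Finset.mem_univ _, rfl⟩, ?_⟩
    have haK : ∀ z : ℕ, z.Prime → z ∣ n → a ≡ (rg (c i z) z : ℤ) [ZMOD ((z ^ 2 : ℕ) : ℤ)] :=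
      fun z hz hzn => hK (fun p => rg (c i p) p) z hz (hple z hzn)
    have haU : ∀ z : ℕ, z.Prime → z ∣ n → c i z ≠ 0 →
        a ≡ (rt z : ℤ) ^ (2 ^ (v2 z + 1 - c i z)) [ZMOD ((z ^ 2 : ℕ) : ℤ)] := by
      intro z hz hzn hne2
      have := haK z hz hzn
      unfold rg at this
      rw [if_neg hne2] at this
      push_cast at this ⊢
      exact this
    have haZ : ∀ z : ℕ, z.Prime → z ∣ n → c i z = 0 → ¬ Passes n a := by
      intro z hz hzn h2 hpass
      have h3 := haK z hz hzn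
      unfold rg at h3
      rw [if_pos h2] at h3
      have h4 : a ≡ 0 [ZMOD (z : ℤ)] := by
        have h5 : a ≡ ((0 : ℕ) : ℤ) [ZMOD (z : ℤ)] := h3.of_dvd (by push_cast; exact dvd_pow_self _ two_ne_zero)
        simpa using h5
      have hz1 : ¬ (z : ℤ) ∣ 1 := by
        intro h
        have : z ∣ 1 := by exact_mod_cast h
        exact hz.one_lt.ne' (Nat.dvd_one.mp this)
      have hzn' : (z : ℤ) ∣ (n : ℤ) := by exact_mod_cast hzn
      obtain ⟨u, t, ht, hut, h⟩ := hpass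
      have ht0 : t ≠ 0 := by rintro rfl; exact (Nat.not_odd_zero) ht
      have hpow : ∀ m, m ≠ 0 → a ^ m ≡ 0 [ZMOD (z : ℤ)] := by
        intro m hm
        have := h4.pow m
        rwa [zero_pow hm] at this
      rcases h with h | ⟨j, hj, h⟩
      · have h6 : (0 : ℤ) ≡ 1 [ZMOD (z : ℤ)] := (hpow t ht0).symm.trans (h.of_dvd hzn')
        apply hz1
        have := Int.modEq_iff_dvd.mp h6
        simpa using this
      · have h6 : (0 : ℤ) ≡ -1 [ZMOD (z : ℤ)] :=
          (hpow (2 ^ j * t) (Nat.mul_ne_zero (pow_ne_zero _ two_ne_zero) ht0)).symm.trans (h.of_dvd hzn')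
        apply hz1
        have := Int.modEq_iff_dvd.mp h6
        simpa using this
    have hunit : ∀ z : ℕ, z.Prime → z ∣ n → c i z ≠ 0 → ¬ (n : ℤ) ∣ a := by
      intro z hz hzn hcz hdvd
      have h1 : IsCoprime a (z : ℤ) := coprime_a hz (odd_prime_of_dvd hodd hz hzn) (haU z hz hzn hcz)
      have h2 : (z : ℤ) ∣ a := (by exact_mod_cast hzn : (z : ℤ) ∣ (n : ℤ)).trans hdvd
      have h4 : IsUnit (z : ℤ) := h1.isUnit_of_dvd' h2 dvd_rfl
      have h5 := Int.isUnit_iff_natAbs_eq.mp h4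
      rw [Int.natAbs_natCast] at h5
      exact hz.one_lt.ne' h5
    have hex : ∃ z : ℕ, z.Prime ∧ z ∣ n ∧ c i z ≠ 0 := by
      by_cases h5 : c i p = 0
      · exact ⟨q, hq, hqn, fun h6 => hne (h5.trans h6.symm)⟩
      · exact ⟨p, hp, hpn, h5⟩
    obtain ⟨z0, hz0, hz0n, hz0c⟩ := hex
    refine ⟨hunit z0 hz0 hz0n hz0c, ?_⟩
    intro hpass
    have hall : ∀ z : ℕ, z.Prime → z ∣ n → c i z ≠ 0 := fun z hz hzn h5 => haZ z hz hzn h5 hpass
    obtain ⟨w', hw'⟩ := passes_val' hodd (f := fun z => v2 z + 1 - c i z)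
      (fun z hz hzn => by have := hall z hz hzn; omega) h4
      (fun z hz hzn => haU z hz hzn (hall z hz hzn)) hpass
    have a1 := hw' p hp hpn
    have a2 := hw' q hq hqn
    have a3 := hc1 i p hp
    have a4 := hc1 i q hq
    have a5 := hall p hp hpn
    have a6 := hall q hq hqn
    apply hne
    omega

/-- one more base handles all numbers that are not Carmichael numbers -/
theorem reliable_of_relC {x : ℕ} {W : Finset ℤ} (h : RelC x W) :
    ∃ W' : Finset ℤ, W'.card ≤ W.card + 1 ∧ Reliable x W' := by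
  classical
  obtain ⟨k, hk⟩ := exists_crt x rt
  refine ⟨insert ((k : ℕ) : ℤ) W, Finset.card_insert_le _ _, ?_⟩
  intro n hnx hn hn1 hnp
  by_cases hC : Carm n
  · obtain ⟨a, ha, haw⟩ := h n hnx hC
    exact ⟨a, Finset.mem_insert_of_mem ha, haw⟩
  · refine ⟨((k : ℕ) : ℤ), Finset.mem_insert_self _ _, ?_, ?_⟩
    · intro hdvd
      obtain ⟨p0, hp0, hp0n⟩ := Nat.exists_prime_and_dvd (show n ≠ 1 by omega)
      have hple : p0 ≤ x := (Nat.le_of_dvd (by omega) hp0n).trans hnx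
      have h1 : IsCoprime ((k : ℕ) : ℤ) (p0 : ℤ) := coprime_a (e := 1) hp0
        (odd_prime_of_dvd hn hp0 hp0n) (by rw [pow_one]; exact hk p0 hp0 hple)
      have h2 : (p0 : ℤ) ∣ ((k : ℕ) : ℤ) := (by exact_mod_cast hp0n : (p0 : ℤ) ∣ (n : ℤ)).trans hdvd
      have h4 : IsUnit (p0 : ℤ) := h1.isUnit_of_dvd' h2 dvd_rfl
      have h5 := Int.isUnit_iff_natAbs_eq.mp h4
      rw [Int.natAbs_natCast] at h5
      exact hp0.one_lt.ne' h5
    · intro hpass
      apply hC
      have h1 := passes_carm hn hn1 (a := ((k : ℕ) : ℤ)) (by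
        intro p hp hpn
        rw [pow_one]
        exact hk p hp ((Nat.le_of_dvd (by omega) hpn).trans hnx)) hpass
      exact ⟨hn1, hnp, h1.1, h1.2⟩

theorem relC_of_reliable {x : ℕ} {W : Finset ℤ} (h : Reliable x W) : RelC x W :=
  fun n hnx hC => h n hnx hC.odd hC.1 hC.2.1

/-- the primes can be coloured with `K` colours so that no Carmichael number up to `x` is
monochromatic -/
def Colourable (x K : ℕ) : Prop :=
  ∃ c : ℕ → ℕ, (∀ p, c p < K) ∧ ∀ n : ℕ, n ≤ x → Carm n →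
    ∃ p q : ℕ, p.Prime ∧ q.Prime ∧ p ∣ n ∧ q ∣ n ∧ c p ≠ c q

theorem reliable_of_colourable {x K : ℕ} (h : Colourable x K) :
    ∃ W : Finset ℤ, W.card ≤ Nat.clog 3 K + 1 ∧ Reliable x W := by
  obtain ⟨c, hc1, hc2⟩ := h
  apply reliable_of_colouring x (Nat.clog 3 K) c
  intro n hnx hn hn1 hnp hsq hk
  by_contra hcon
  push Not at hcon
  obtain ⟨p, q, hp, hq, hpn, hqn, hne⟩ := hc2 n hnx ⟨hn1, hnp, hsq, hk⟩
  apply hne
  have hlt : ∀ p, c p < 3 ^ Nat.clog 3 K :=
    fun p => lt_of_lt_of_le (hc1 p) (Nat.le_pow_clog (by norm_num) _)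
  apply eq_of_dg (Nat.clog 3 K) _ _ (hlt p) (hlt q)
  intro i hi
  exact hcon i hi p q hp hq hpn hqn

theorem v2_le {p x : ℕ} (hp : p.Prime) (hpx : p ≤ x) : v2 p ≤ Nat.log 2 x := by
  unfold v2
  have hp1 : p - 1 ≠ 0 := by have := hp.two_le; omega
  have h1 : 2 ^ (p - 1).factorization 2 ≤ x :=
    (Nat.le_of_dvd (by omega) (Nat.ordProj_dvd (p - 1) 2)).trans (by omega)
  exact Nat.le_log_of_pow_le (by norm_num) h1

theorem colourable_of_digits {x w : ℕ} (h : Digits x w) :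
    Colourable x ((Nat.log 2 x + 2) ^ w) := by
  classical
  obtain ⟨c, hc1, hc2⟩ := h
  have hcard : Fintype.card (Fin w → Fin (Nat.log 2 x + 2)) = (Nat.log 2 x + 2) ^ w := by simp
  let v : ℕ → (Fin w → Fin (Nat.log 2 x + 2)) :=
    fun p i => ⟨min (c i p) (Nat.log 2 x + 1), by omega⟩
  refine ⟨fun p => (Fintype.equivFin (Fin w → Fin (Nat.log 2 x + 2)) (v p)).val, ?_, ?_⟩
  · intro p
    exact lt_of_lt_of_eq (Fintype.equivFin (Fin w → Fin (Nat.log 2 x + 2)) (v p)).isLt hcard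
  · intro n hnx hn
    obtain ⟨i, p, q, hp, hq, hpn, hqn, hne⟩ := hc2 n hnx hn
    refine ⟨p, q, hp, hq, hpn, hqn, ?_⟩
    intro heq
    have h1 : v p = v q := (Fintype.equivFin (Fin w → Fin (Nat.log 2 x + 2))).injective (Fin.ext heq)
    have h2 : (v p i).val = (v q i).val := by rw [h1]
    have hle : ∀ z, z ∣ n → z ≤ x := fun z hz => (Nat.le_of_dvd (by have := hn.1; omega) hz).trans hnx
    have h3 := hc1 i p hp
    have h4 := hc1 i q hq
    have h5 := v2_le hp (hle p hpn)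
    have h6 := v2_le hq (hle q hqn)
    simp only [v] at h2
    apply hne
    omega

end Pool.Agent.H986S
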